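import Mathlib
import Pool.Agent.Wetzel.Main
import Pool.Agent.PFAc.Main

/-!
# The Proper Forcing Axiom refutes Wetzel families

The definitions are in `Pool/Agent/Wetzel/Defs.lean`. The proof: given `PFA`, a proper poset
(countable chains of countable clones of Borel functions with generic reals, together with finite
steep colourings) yields an `ω₁`-sequence of reals `z_ξ` such that every real-analytic
function `φ` whose value at each real `x` lies in a prescribed set of size at most `ℵ₁` satisfies
`φ(z_ξ) ∈ {g(z_ξ) : g in the ξ-th clone}` for all but countably many `ξ`. A closing-off argument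
then shows that there are at most `ℵ₁` such `φ`. That `PFA` implies `𝔠 = ℵ₂` is proved in
`Pool/Agent/PFAc/Main.lean`, by coding reals by ordinals below `ω₂`.
-/

namespace Pool.Agent.Results.MP_eaf9cc_lc.PFANoWetzel

open Cardinal Pool.Agent.Wetzel

/-- Under the Proper Forcing Axiom, the continuum is `ℵ₂`, Martin's axiom holds, and there is no
Wetzel family. -/
theorem result : PFA → 𝔠 = (ℵ_ 2 : Cardinal.{0}) ∧ MA ∧ ¬ ∃ F : Set (ℂ → ℂ), IsWetzel F :=
  fun hPFA =>
    have hc := Pool.Agent.PFAc.continuum_eq hPFA
    ⟨hc, MA_of_PFA hPFA hc, no_wetzel hPFA hc⟩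

end Pool.Agent.Results.MP_eaf9cc_lc.PFANoWetzel
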